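import Pool.Agent.WK4.Stmts

/-!
# MP_7d2497_an, squad WK4: row XNE (local necessity)
-/

set_option autoImplicit false

namespace Pool.Agent.WK4

open MeasureTheory Filter Topology Complex
open Pool.Agent.H78E Pool.Agent.WK Pool.Agent.WK2 Pool.Agent.WK3

noncomputable section

/-- XNE. -/
theorem xne (hXcs : XcsStmt) (hNic : NicStmt) (hAsur : AsurStmt) (hOpn : OpnStmt) : XneStmt := by
  intro φ C0 M hφ hP hL L hE p hp
  by_contra hF
  obtain ⟨K, hKL, hpK, hcl, hco, hD, hC⟩ := hXcs φ C0 M hφ hP hL L p hp hF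
  have hN : Nice φ K := hNic φ hφ K {p} (Set.singleton_subset_iff.2 hpK)
    Set.subsingleton_singleton hcl hco hD
  obtain ⟨C, hC'⟩ := hOpn φ hφ K hN (hAsur φ hφ K hN L hKL hE)
  exact hC C hC'

end

end Pool.Agent.WK4
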